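import Mathlib

set_option autoImplicit false

namespace Pool.Agent.Results.MP_893b10_gt.EightDimensions

/-- `w` lists the vertices of a nondegenerate simplex contained in the cube `Q_n = [0,1]^n`. -/
def IsSimplexInCube {n : ℕ} (w : Fin (n + 1) → (Fin n → ℝ)) : Prop :=
  AffineIndependent ℝ w ∧ ∀ i j, w i j ∈ Set.Icc (0 : ℝ) 1

/-- `Q_n ⊆ σ S`, where `S` is the simplex with the vertices `w` and `σ S` is its image under the
homothety with ratio `σ` and centre the centre of gravity of `S`. -/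
def Absorbs {n : ℕ} (w : Fin (n + 1) → (Fin n → ℝ)) (σ : ℝ) : Prop :=
  ∀ x : Fin n → ℝ, (∀ j, x j ∈ Set.Icc (0 : ℝ) 1) →
    x ∈ ⇑(AffineMap.homothety (Finset.univ.centroid ℝ w) σ) '' convexHull ℝ (Set.range w)

/-- `ξ = ξ(Q_n;S)` is the least `σ ≥ 1` with `Q_n ⊆ σ S`. -/
def IsAbsorptionIndex {n : ℕ} (w : Fin (n + 1) → (Fin n → ℝ)) (ξ : ℝ) : Prop :=
  IsLeast {σ : ℝ | 1 ≤ σ ∧ Absorbs w σ} ξ

/-- `m = ξ_n(Q_n)`: the least absorption index of the nondegenerate simplices in `Q_n`. -/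
def IsMinimalAbsorptionIndex (n : ℕ) (m : ℝ) : Prop :=
  IsLeast {ξ : ℝ | ∃ w : Fin (n + 1) → (Fin n → ℝ), IsSimplexInCube w ∧ IsAbsorptionIndex w ξ} m

/-- The vertices of the simplex in the cube `[0,1]^8` (nine points with rational coordinates). -/
private def V : Fin 9 → Fin 8 → ℚ :=
  ![![49/162, 0, 1/2, 1/2, 5/18, 1/2, 1, 7/18],
    ![1, 17/28, 11/28, 1/2, 5/9, 1, 17/36, 0],
    ![0, 0, 1, 1/2, 5/9, 1, 0, 0],
    ![49/81, 5/8, 5/8, 0, 1, 0, 35/72, 7/9],
    ![49/81, 5/8, 5/8, 1, 1, 0, 35/72, 7/9],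
    ![0, 1, 0, 1/2, 5/9, 1, 7/9, 0],
    ![7/9, 9/14, 5/14, 1/2, 5/9, 1, 1/2, 1],
    ![49/81, 0, 0, 1/2, 0, 0, 0, 7/9],
    ![49/81, 1, 1, 1/2, 0, 0, 7/9, 7/9]]

/-- `N i j` is nine halves of the coefficient of `x j` in the `i`-th barycentric coordinate of the
simplex with vertices `V`; that coordinate is `(1 + ∑ j, N i j * (2 * x j - 1)) / 9`. -/
private def N : Fin 9 → Fin 8 → ℚ :=
  ![![0, -7/2, 0, 0, 0, 0, 9/2, 0],
    ![9/2, 0, 0, 0, 0, 0, 0, -7/2],
    ![-99/56, -1/2, 9/4, 0, 0, 1, -9/4, -13/56],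
    ![0, 0, 0, -9/2, 9/4, -5/4, 0, 0],
    ![0, 0, 0, 9/2, 9/4, -5/4, 0, 0],
    ![-153/56, 9/4, -9/4, 0, 0, 0, 0, -43/56],
    ![0, 0, 0, 0, 0, 7/2, 0, 9/2],
    ![0, -1/2, -9/4, 0, -27/16, -21/16, -9/4, 0],
    ![0, 9/4, 9/4, 0, -45/16, -11/16, 0, 0]]

private theorem hV : ∀ i j, 0 ≤ V i j ∧ V i j ≤ 1 := by decide +kernel

private theorem hdual : ∀ i k, 1 + ∑ j, N i j * (2 * V k j - 1) = if i = k then 9 else 0 := by
  decide +kernel

private theorem habs : ∀ i, ∑ j, |N i j| = 8 := by decide +kernel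

private theorem hNsum : ∀ j, ∑ i, N i j = 0 := by decide +kernel

private theorem hVsum : ∀ j, ∑ i, V i j = 9 / 2 := by decide +kernel

private theorem hVN : ∀ j k, ∑ i, V i j * N i k = if j = k then 9 / 2 else 0 := by decide +kernel

/-- The vertices as real points. -/
private noncomputable def v : Fin (8 + 1) → (Fin 8 → ℝ) := fun i j => (V i j : ℝ)

/-- The real coefficients. -/
private noncomputable def Nr : Fin 9 → Fin 8 → ℝ := fun i j => (N i j : ℝ)

private theorem v_mem (i : Fin 9) (j : Fin 8) : v i j ∈ Set.Icc (0 : ℝ) 1 := by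
  have h := hV i j
  constructor
  · show (0 : ℝ) ≤ (V i j : ℝ)
    exact_mod_cast h.1
  · show (V i j : ℝ) ≤ (1 : ℝ)
    exact_mod_cast h.2

private theorem dualR (i k : Fin 9) :
    1 + ∑ j, Nr i j * (2 * v k j - 1) = if i = k then 9 else 0 := by
  have h := congrArg (Rat.cast : ℚ → ℝ) (hdual i k)
  have h2 : ((1 + ∑ j, N i j * (2 * V k j - 1) : ℚ) : ℝ) =
      1 + ∑ j, Nr i j * (2 * v k j - 1) := by
    unfold Nr v
    push_cast
    rfl
  rw [← h2, h]
  split_ifs <;> norm_num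

private theorem absR (i : Fin 9) : ∑ j, |Nr i j| = 8 := by
  have h := congrArg (Rat.cast : ℚ → ℝ) (habs i)
  have h2 : ((∑ j, |N i j| : ℚ) : ℝ) = ∑ j, |Nr i j| := by
    unfold Nr
    push_cast
    rfl
  rw [← h2, h]
  norm_num

private theorem NsumR (j : Fin 8) : ∑ i, Nr i j = 0 := by
  have h := congrArg (Rat.cast : ℚ → ℝ) (hNsum j)
  have h2 : ((∑ i, N i j : ℚ) : ℝ) = ∑ i, Nr i j := by
    unfold Nr
    push_cast
    rfl
  rw [← h2, h]
  norm_num

private theorem VsumR (j : Fin 8) : ∑ i, v i j = 9 / 2 := by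
  have h := congrArg (Rat.cast : ℚ → ℝ) (hVsum j)
  have h2 : ((∑ i, V i j : ℚ) : ℝ) = ∑ i, v i j := by
    unfold v
    push_cast
    rfl
  rw [← h2, h]
  norm_num

private theorem VNR (j k : Fin 8) : ∑ i, v i j * Nr i k = if j = k then 9 / 2 else 0 := by
  have h := congrArg (Rat.cast : ℚ → ℝ) (hVN j k)
  have h2 : ((∑ i, V i j * N i k : ℚ) : ℝ) = ∑ i, v i j * Nr i k := by
    unfold v Nr
    push_cast
    rfl
  rw [← h2, h]
  split_ifs <;> norm_num

private theorem v_affineIndependent : AffineIndependent ℝ v := by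
  rw [affineIndependent_iff_of_fintype]
  intro w hw hwv i
  rw [Finset.univ.weightedVSub_eq_linear_combination hw] at hwv
  have hj : ∀ j : Fin 8, ∑ k, w k * v k j = 0 := by
    intro j
    have := congrFun hwv j
    simpa [Finset.sum_apply] using this
  have key : ∑ k, w k * (1 + ∑ j, Nr i j * (2 * v k j - 1)) = 9 * w i := by
    simp only [dualR i]
    simp [mul_comm]
  have key2 : ∑ k, w k * (1 + ∑ j, Nr i j * (2 * v k j - 1)) = 0 := by
    have e1 : ∀ k, w k * (1 + ∑ j, Nr i j * (2 * v k j - 1)) =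
        w k * (1 - ∑ j, Nr i j) + ∑ j, 2 * Nr i j * (w k * v k j) := by
      intro k
      have : ∑ j, Nr i j * (2 * v k j - 1) = ∑ j, 2 * Nr i j * v k j - ∑ j, Nr i j := by
        rw [← Finset.sum_sub_distrib]
        exact Finset.sum_congr rfl fun j _ => by ring
      rw [this]
      have h3 : ∑ j, 2 * Nr i j * (w k * v k j) = w k * ∑ j, 2 * Nr i j * v k j := by
        rw [Finset.mul_sum]
        exact Finset.sum_congr rfl fun j _ => by ring
      rw [h3]
      ring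
    simp only [e1]
    rw [Finset.sum_add_distrib, ← Finset.sum_mul, hw, Finset.sum_comm]
    simp only [← Finset.mul_sum, hj]
    simp
  have : 9 * w i = 0 := by rw [← key, key2]
  linarith

private theorem centroid_v : Finset.univ.centroid ℝ v = fun _ => (1 / 2 : ℝ) := by
  have h1 : ∑ i, (Finset.univ : Finset (Fin (8 + 1))).centroidWeights ℝ i = 1 :=
    Finset.sum_centroidWeights_eq_one_of_nonempty ℝ _ Finset.univ_nonempty
  rw [Finset.centroid_def, Finset.affineCombination_eq_linear_combination _ _ _ h1]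
  funext j
  simp only [Finset.centroidWeights_apply, Finset.sum_apply, Pi.smul_apply, smul_eq_mul]
  rw [← Finset.mul_sum]
  have h := VsumR j
  have h' : ∑ i : Fin (8 + 1), v i j = 9 / 2 := h
  rw [h']
  simp
  norm_num

/-- The barycentric weights of the point `1/2 + (x - 1/2)/8`. -/
private noncomputable def wt (x : Fin 8 → ℝ) (i : Fin 9) : ℝ :=
  (1 / 72) * ∑ k, (|Nr i k| + Nr i k * (2 * x k - 1))

private theorem wt_nonneg (x : Fin 8 → ℝ) (hx : ∀ j, x j ∈ Set.Icc (0 : ℝ) 1) (i : Fin 9) :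
    0 ≤ wt x i := by
  unfold wt
  refine mul_nonneg (by norm_num) (Finset.sum_nonneg fun k _ => ?_)
  have h0 := (hx k).1
  have h1 := (hx k).2
  have h2 : |2 * x k - 1| ≤ 1 := by
    rw [abs_le]
    constructor <;> linarith
  have h3 : |Nr i k * (2 * x k - 1)| ≤ |Nr i k| := by
    rw [abs_mul]
    calc |Nr i k| * |2 * x k - 1| ≤ |Nr i k| * 1 :=
          mul_le_mul_of_nonneg_left h2 (abs_nonneg _)
      _ = |Nr i k| := mul_one _
  have h4 := neg_abs_le (Nr i k * (2 * x k - 1))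
  linarith

private theorem wt_eq (x : Fin 8 → ℝ) (i : Fin 9) :
    wt x i = (1 / 72) * (8 + ∑ k, Nr i k * (2 * x k - 1)) := by
  unfold wt
  rw [Finset.sum_add_distrib, absR]

private theorem wt_sum (x : Fin 8 → ℝ) : ∑ i, wt x i = 1 := by
  simp only [wt_eq]
  rw [← Finset.mul_sum, Finset.sum_add_distrib, Finset.sum_comm]
  simp only [← Finset.sum_mul, NsumR]
  simp
  norm_num

private theorem wt_comb (x : Fin 8 → ℝ) (j : Fin 8) :
    ∑ i, wt x i * v i j = 1 / 2 + (x j - 1 / 2) / 8 := by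
  have e : ∀ i, wt x i * v i j =
      (1 / 9) * v i j + (1 / 72) * ∑ k, (v i j * Nr i k) * (2 * x k - 1) := by
    intro i
    rw [wt_eq]
    have : ∑ k, (v i j * Nr i k) * (2 * x k - 1) = v i j * ∑ k, Nr i k * (2 * x k - 1) := by
      rw [Finset.mul_sum]
      exact Finset.sum_congr rfl fun k _ => by ring
    rw [this]
    ring
  simp only [e]
  rw [Finset.sum_add_distrib, ← Finset.mul_sum, ← Finset.mul_sum, VsumR, Finset.sum_comm]
  simp only [← Finset.sum_mul, VNR]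
  simp
  ring


private theorem lower {n : ℕ} (w : Fin (n + 1) → (Fin n → ℝ)) (hw : IsSimplexInCube w) (σ : ℝ)
    (hσ1 : 1 ≤ σ) (h : Absorbs w σ) : (n : ℝ) ≤ σ := by
  obtain ⟨hind, hcube⟩ := hw
  have htop : affineSpan ℝ (Set.range w) = ⊤ := by
    rw [hind.affineSpan_eq_top_iff_card_eq_finrank_add_one]
    simp
  let b : AffineBasis (Fin (n + 1)) ℝ (Fin n → ℝ) := ⟨w, hind, htop⟩
  have hbw : ∀ i, b i = w i := fun i => rfl
  have hrange : Set.range w = Set.range b := rfl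
  have hn : ((n : ℝ) + 1) ≠ 0 := by positivity
  have hcen : ∀ i, b.coord i (Finset.univ.centroid ℝ w) = ((n : ℝ) + 1)⁻¹ := by
    intro i
    show b.coord i (Finset.univ.centroid ℝ b) = _
    rw [b.coord_apply_centroid (Finset.mem_univ i)]
    simp
  have hσ : 0 ≤ σ := by linarith
  have hlow : ∀ x : Fin n → ℝ, (∀ j, x j ∈ Set.Icc (0 : ℝ) 1) →
      ∀ i, (1 - σ) * ((n : ℝ) + 1)⁻¹ ≤ b.coord i x := by
    intro x hx i
    obtain ⟨y, hy, rfl⟩ := h x hx
    rw [hrange, b.convexHull_eq_nonneg_coord] at hy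
    have h1 := hy i
    rw [AffineMap.homothety_eq_lineMap, AffineMap.apply_lineMap, AffineMap.lineMap_apply_ring,
      hcen]
    have : 0 ≤ σ * b.coord i y := mul_nonneg hσ h1
    linarith
  -- reflect the vertex `w i` in the centre of the cube
  have hrefl : ∀ i, (1 - σ) * ((n : ℝ) + 1)⁻¹ ≤ 2 * b.coord i (fun _ => (1 / 2 : ℝ)) - 1 := by
    intro i
    have h1 := hlow (AffineMap.lineMap (w i) (fun _ => (1 / 2 : ℝ)) (2 : ℝ)) (fun j => by
      have h2 := hcube i j
      have h3 : (AffineMap.lineMap (w i) (fun _ => (1 / 2 : ℝ)) (2 : ℝ) : Fin n → ℝ) j =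
          1 - w i j := by
        simp only [AffineMap.lineMap_apply, vsub_eq_sub, vadd_eq_add, Pi.add_apply, Pi.smul_apply,
          Pi.sub_apply, smul_eq_mul]
        ring
      rw [h3]
      exact ⟨by linarith [h2.2], by linarith [h2.1]⟩) i
    rw [AffineMap.apply_lineMap, AffineMap.lineMap_apply_ring, ← hbw i,
      AffineBasis.coord_apply_eq] at h1
    linarith
  have hsum := Finset.sum_le_sum fun i (_ : i ∈ (Finset.univ : Finset (Fin (n + 1)))) => hrefl i
  have h6 : ∑ i, b.coord i (fun _ => (1 / 2 : ℝ)) = 1 := b.sum_coord_apply_eq_one _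
  have h7 : ∑ i, (2 * b.coord i (fun _ => (1 / 2 : ℝ)) - 1) = 2 - ((n : ℝ) + 1) := by
    rw [Finset.sum_sub_distrib, ← Finset.mul_sum, h6]
    simp
  rw [h7] at hsum
  simp only [Finset.sum_const, Finset.card_univ, Fintype.card_fin, nsmul_eq_mul,
    Nat.cast_add, Nat.cast_one] at hsum
  have h5 : ((n : ℝ) + 1) * ((1 - σ) * ((n : ℝ) + 1)⁻¹) = 1 - σ := by
    field_simp
  rw [h5] at hsum
  linarith

/-- `ξ_8(Q_8) = 8`. -/
theorem result : IsMinimalAbsorptionIndex 8 8 := by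
  have hv : IsSimplexInCube v := ⟨v_affineIndependent, v_mem⟩
  have habs8 : Absorbs v 8 := by
    intro x hx
    refine ⟨∑ i, wt x i • v i, ?_, ?_⟩
    · exact (convex_convexHull ℝ (Set.range v)).sum_mem (fun i _ => wt_nonneg x hx i) (wt_sum x)
        (fun i _ => subset_convexHull ℝ _ (Set.mem_range_self i))
    · funext j
      rw [centroid_v]
      have h : (∑ i, wt x i • v i) j = 1 / 2 + (x j - 1 / 2) / 8 := by
        rw [Finset.sum_apply]
        simp only [Pi.smul_apply, smul_eq_mul]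
        exact wt_comb x j
      simp only [AffineMap.homothety_apply, vsub_eq_sub, vadd_eq_add, Pi.add_apply, Pi.smul_apply,
        Pi.sub_apply, smul_eq_mul, h]
      ring
  refine ⟨⟨v, hv, ⟨by norm_num, habs8⟩, ?_⟩, ?_⟩
  · rintro σ ⟨h1, hσ⟩
    have := lower v hv σ h1 hσ
    simpa using this
  · rintro ξ ⟨w, hw, ⟨h1, hξ⟩, -⟩
    have := lower w hw ξ h1 hξ
    simpa using this

end Pool.Agent.Results.MP_893b10_gt.EightDimensions
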